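import Mathlib

/-!
# The budgeted sharing game: definitions
-/

set_option autoImplicit false

namespace Run7.h413.BR

open Finset

/-- An instance of the budgeted sharing game with the agents `U` and the sites `H`. -/
structure Inst (U H : Type) where
  /-- the edges of the bipartite graph: the agent is interested in the site -/
  likes : U → H → Prop
  /-- the query rates of the sites -/
  rate : H → ℝ
  /-- the costs of the sites -/
  cost : H → ℝ
  /-- the budgets of the agents -/
  budget : U → ℝ
  rate_pos : ∀ i, 0 < rate i
  cost_pos : ∀ i, 0 < cost i
  budget_pos : ∀ j, 0 < budget j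

variable {U H : Type}

/-- The feasible strategies of the agent `j`. -/
def Feasible (I : Inst U H) (j : U) (s : Finset H) : Prop :=
  (∀ i ∈ s, I.likes j i) ∧ ∑ i ∈ s, I.cost i ≤ I.budget j

/-- The number of the agents that serve the site `i`. -/
def load [Fintype U] [DecidableEq H] (S : U → Finset H) (i : H) : ℕ :=
  (univ.filter fun j => i ∈ S j).card

/-- The number which the agent `j` receives in the state `S`. -/
noncomputable def gain [Fintype U] [DecidableEq H] (I : Inst U H) (S : U → Finset H) (j : U) : ℝ :=
  ∑ i ∈ S j, I.rate i / load S i

/-- `S'` arises from `S` by a best-response move of one agent, which strictly increases what this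
agent receives. -/
def Move [Fintype U] [DecidableEq U] [DecidableEq H] (I : Inst U H) (S S' : U → Finset H) : Prop :=
  ∃ (j : U) (s : Finset H), Feasible I j s ∧ S' = Function.update S j s ∧
    gain I S j < gain I S' j ∧
    ∀ t, Feasible I j t → gain I (Function.update S j t) j ≤ gain I S' j

/-- `P 0, …, P L` is a best-response path with `L` moves. -/
def IsPath [Fintype U] [DecidableEq U] [DecidableEq H] (I : Inst U H) (L : ℕ)
    (P : ℕ → U → Finset H) : Prop :=
  (∀ k ≤ L, ∀ j, Feasible I j (P k j)) ∧ ∀ k < L, Move I (P k) (P (k + 1))

end Run7.h413.BR
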