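import Pool.Agent.Run7.h413.BR.Game

/-!
# A chain of gates inside the budgeted sharing game
-/

set_option autoImplicit false

namespace Run7.h413.BR

open Finset

/-- First end of the edges of a level. -/
def sr : Fin 5 → ℕ := ![0, 1, 0, 1, 2]

/-- Second end of the edges of a level. -/
def ds : Fin 5 → ℕ := ![1, 2, 3, 3, 3]

/-- Weights of the edges of level `0`. -/
def w0 : Fin 5 → ℝ := ![10, 4, 2, 4, 2]

/-- Scale of the level `l`. -/
noncomputable def sc (l : ℕ) : ℝ := (1 / 16) ^ l

theorem sc_pos (l : ℕ) : 0 < sc l := by unfold sc; positivity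

theorem sc_succ (l : ℕ) : sc (l + 1) = sc l / 16 := by unfold sc; rw [pow_succ]; ring

theorem sr_lt_ds (k : Fin 5) : sr k < ds k := by fin_cases k <;> simp [sr, ds]

theorem ds_le (k : Fin 5) : ds k ≤ 3 := by fin_cases k <;> simp [ds]

theorem w0_pos (k : Fin 5) : 0 < w0 k := by fin_cases k <;> simp [w0]

variable {n : ℕ}

abbrev Edge (n : ℕ) := Fin n × Fin 5

abbrev Node (n : ℕ) := Fin (3 * n + 1)

/-- ends of an edge -/
def pa (e : Edge n) : Node n :=
  ⟨3 * e.1 + sr e.2, by have := e.1.2; have := sr_lt_ds e.2; have := ds_le e.2; omega⟩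

def pb (e : Edge n) : Node n :=
  ⟨3 * e.1 + ds e.2, by have := e.1.2; have := ds_le e.2; omega⟩

theorem pa_ne_pb (e : Edge n) : pa e ≠ pb e := by
  intro h
  have h1 : 3 * (e.1 : ℕ) + sr e.2 = 3 * e.1 + ds e.2 := congrArg Fin.val h
  have := sr_lt_ds e.2
  omega

noncomputable def wt (e : Edge n) : ℝ := w0 e.2 * sc e.1

theorem wt_pos (e : Edge n) : 0 < wt e := mul_pos (w0_pos _) (sc_pos _)

/-- edges at a node -/
def inc (i : Node n) : Finset (Edge n) := univ.filter fun e => pa e = i ∨ pb e = i

theorem mem_inc {i : Node n} {e : Edge n} : e ∈ inc i ↔ pa e = i ∨ pb e = i := by simp [inc]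

/-- the other end -/
def oth (i : Node n) (e : Edge n) : Node n := if pa e = i then pb e else pa e

/-- total weight at a node -/
noncomputable def tot (i : Node n) : ℝ := ∑ e ∈ inc i, wt e

/-- influence on a node -/
noncomputable def act (x : Node n → Bool) (i : Node n) : ℝ :=
  ∑ e ∈ inc i, if x (oth i e) then wt e else 0

/-- thresholds -/
noncomputable def th (i : ℕ) : ℝ :=
  if i = 0 then -1 else (if i % 3 = 1 then 9 else 3) * sc ((i - 1) / 3)

theorem wt_le_tot {i : Node n} {e : Edge n} (h : e ∈ inc i) : wt e ≤ tot i :=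
  single_le_sum (f := wt) (fun a _ => (wt_pos a).le) h

theorem tot_th (i : Node n) : 0 < 2 * tot i - th i := by
  rcases i with ⟨i, hi⟩
  rcases Nat.eq_zero_or_pos i with rfl | h0
  · have h1 : 0 ≤ tot (⟨0, hi⟩ : Node n) := sum_nonneg fun a _ => (wt_pos a).le
    simp only [th, if_true]
    linarith
  · obtain ⟨j, hj⟩ : ∃ j, j = (i - 1) / 3 := ⟨_, rfl⟩
    have hjn : j < n := by omega
    have h3 : i = 3 * j + 1 ∨ i = 3 * j + 2 ∨ i = 3 * j + 3 := by omega
    have hs := sc_pos j
    have hne : i ≠ 0 := by omega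
    rcases h3 with h3 | h3 | h3
    · have hm : ((⟨j, hjn⟩, 0) : Edge n) ∈ inc (⟨i, hi⟩ : Node n) := by
        rw [mem_inc]; right; apply Fin.ext; simp [pb, ds, h3]
      have h1 := wt_le_tot hm
      have h2 : i % 3 = 1 := by omega
      simp only [wt, w0] at h1
      simp only [th, if_neg hne, if_pos h2, ← hj]
      simp at h1
      linarith
    · have hm : ((⟨j, hjn⟩, 1) : Edge n) ∈ inc (⟨i, hi⟩ : Node n) := by
        rw [mem_inc]; right; apply Fin.ext; simp [pb, ds, h3]
      have h1 := wt_le_tot hm
      have h2 : ¬ i % 3 = 1 := by omega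
      simp only [wt, w0] at h1
      simp only [th, if_neg hne, if_neg h2, ← hj]
      simp at h1
      linarith
    · have hm : ((⟨j, hjn⟩, 3) : Edge n) ∈ inc (⟨i, hi⟩ : Node n) := by
        rw [mem_inc]; right; apply Fin.ext; simp [pb, ds, h3]
      have h1 := wt_le_tot hm
      have h2 : ¬ i % 3 = 1 := by omega
      simp only [wt, w0] at h1
      simp only [th, if_neg hne, if_neg h2, ← hj]
      simp at h1
      linarith

theorem inc_a {j : ℕ} (hj : j < n) (h : 3 * j + 1 < 3 * n + 1) :
    inc (⟨3 * j + 1, h⟩ : Node n) = {(⟨j, hj⟩, 0), (⟨j, hj⟩, 1), (⟨j, hj⟩, 3)} := by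
  ext ⟨l, k⟩
  rw [mem_inc]
  fin_cases k <;> simp [pa, pb, sr, ds, Fin.ext_iff] <;> omega

theorem inc_b {j : ℕ} (hj : j < n) (h : 3 * j + 2 < 3 * n + 1) :
    inc (⟨3 * j + 2, h⟩ : Node n) = {(⟨j, hj⟩, 1), (⟨j, hj⟩, 4)} := by
  ext ⟨l, k⟩
  rw [mem_inc]
  fin_cases k <;> simp [pa, pb, sr, ds, Fin.ext_iff] <;> omega

theorem inc_u {j : ℕ} (hj : j < n) (h : 3 * j + 3 < 3 * n + 1) (h1 : ¬ j + 1 < n) :
    inc (⟨3 * j + 3, h⟩ : Node n) = {(⟨j, hj⟩, 2), (⟨j, hj⟩, 3), (⟨j, hj⟩, 4)} := by
  ext ⟨l, k⟩
  rw [mem_inc]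
  have := l.2
  fin_cases k <;> simp [pa, pb, sr, ds, Fin.ext_iff] <;> omega

theorem inc_u2 {j : ℕ} (hj : j < n) (h : 3 * j + 3 < 3 * n + 1) (h1 : j + 1 < n) :
    inc (⟨3 * j + 3, h⟩ : Node n) = {(⟨j, hj⟩, 2), (⟨j, hj⟩, 3), (⟨j, hj⟩, 4),
      (⟨j + 1, h1⟩, 0), (⟨j + 1, h1⟩, 2)} := by
  ext ⟨l, k⟩
  rw [mem_inc]
  have := l.2
  fin_cases k <;> simp [pa, pb, sr, ds, Fin.ext_iff] <;> omega

theorem inc_zero {i : Node n} (h : (i : ℕ) = 0) :
    inc i ⊆ univ.filter fun e : Edge n => (e.1 : ℕ) = 0 ∧ (e.2 = 0 ∨ e.2 = 2) := by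
  rintro ⟨l, k⟩ he
  rw [mem_inc] at he
  rw [mem_filter]
  refine ⟨mem_univ _, ?_⟩
  fin_cases k <;> simp [pa, pb, sr, ds, Fin.ext_iff, h] at he ⊢ <;> omega

theorem card_inc_le (i : Node n) : (inc i).card ≤ 5 := by
  rcases i with ⟨i, hi⟩
  rcases Nat.eq_zero_or_pos i with rfl | h0
  · have h1 := card_le_card (inc_zero (i := (⟨0, hi⟩ : Node n)) rfl)
    refine h1.trans ?_
    have h2 : (univ.filter fun e : Edge n => (e.1 : ℕ) = 0 ∧ (e.2 = 0 ∨ e.2 = 2)).card
        ≤ (univ : Finset (Fin 5)).card := by
      refine card_le_card_of_injOn Prod.snd (fun _ _ => mem_coe.2 (mem_univ _)) ?_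
      rintro ⟨a, b⟩ ha ⟨a', b'⟩ ha' hab
      simp only [coe_filter, mem_univ, true_and, Set.mem_setOf_eq] at ha ha' hab
      subst hab
      have : a = a' := Fin.ext (ha.1.trans ha'.1.symm)
      rw [this]
    simpa using h2
  · obtain ⟨j, hj⟩ : ∃ j, j = (i - 1) / 3 := ⟨_, rfl⟩
    have hjn : j < n := by omega
    have h3 : i = 3 * j + 1 ∨ i = 3 * j + 2 ∨ i = 3 * j + 3 := by omega
    clear hj
    rcases h3 with rfl | rfl | rfl
    · rw [inc_a hjn hi]; exact card_le_three.trans (by norm_num)
    · rw [inc_b hjn hi]; exact card_le_two.trans (by norm_num)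
    · by_cases h1 : j + 1 < n
      · rw [inc_u2 hjn hi h1]; exact card_le_five
      · rw [inc_u hjn hi h1]; exact card_le_three.trans (by norm_num)

/-- The instance. -/
noncomputable def inst (n : ℕ) : Inst (Node n) (Node n ⊕ Edge n) where
  likes i h := h = Sum.inl i ∨ ∃ e ∈ inc i, h = Sum.inr e
  rate h := match h with
    | Sum.inl i => 2 * tot i - th i
    | Sum.inr e => 2 * wt e
  cost h := match h with
    | Sum.inl _ => 5
    | Sum.inr _ => 1
  budget _ := 5
  rate_pos h := match h with
    | Sum.inl i => tot_th i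
    | Sum.inr e => by have := wt_pos e; show 0 < 2 * wt e; linarith
  cost_pos h := match h with
    | Sum.inl _ => by show (0 : ℝ) < 5; norm_num
    | Sum.inr _ => one_pos
  budget_pos _ := by norm_num

/-- the two strategies which matter -/
def strat (b : Bool) (i : Node n) : Finset (Node n ⊕ Edge n) :=
  if b then (inc i).map Function.Embedding.inr else {Sum.inl i}

/-- state of a configuration -/
def st (x : Node n → Bool) : Node n → Finset (Node n ⊕ Edge n) := fun i => strat (x i) i

theorem st_update (x : Node n → Bool) (i : Node n) (b : Bool) :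
    st (Function.update x i b) = Function.update (st x) i (strat b i) := by
  funext j
  by_cases h : j = i
  · subst h; simp [st]
  · simp [st, h]

theorem inl_mem_st {x : Node n → Bool} {i j : Node n} :
    (Sum.inl i : Node n ⊕ Edge n) ∈ st x j ↔ x j = false ∧ i = j := by
  unfold st strat
  cases h : x j <;> simp

theorem inr_mem_st {x : Node n → Bool} {e : Edge n} {j : Node n} :
    (Sum.inr e : Node n ⊕ Edge n) ∈ st x j ↔ x j = true ∧ e ∈ inc j := by
  unfold st strat
  cases h : x j <;> simp

/-- value of a site for a deviating agent -/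
noncomputable def val (x : Node n → Bool) (i : Node n) : Node n ⊕ Edge n → ℝ
  | Sum.inl _ => 2 * tot i - th i
  | Sum.inr e => 2 * wt e - if x (oth i e) then wt e else 0

theorem load_inl (x : Node n → Bool) (i : Node n) (t : Finset (Node n ⊕ Edge n))
    (h : (Sum.inl i : Node n ⊕ Edge n) ∈ t) :
    load (Function.update (st x) i t) (Sum.inl i) = 1 := by
  unfold load
  rw [card_eq_one]
  refine ⟨i, ?_⟩
  ext j
  simp only [mem_filter, mem_univ, true_and, mem_singleton]
  by_cases hj : j = i
  · subst hj; simp [h]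
  · simp only [Function.update_of_ne hj, inl_mem_st, hj, iff_false]
    rintro ⟨_, h2⟩
    exact hj h2.symm

theorem oth_ne {i : Node n} {e : Edge n} (he : e ∈ inc i) : oth i e ≠ i := by
  unfold oth
  rw [mem_inc] at he
  split_ifs with h
  · intro h2; exact pa_ne_pb e (h.trans h2.symm)
  · exact h

theorem mem_inc_oth {i j : Node n} {e : Edge n} (he : e ∈ inc i) (hj : j ≠ i) :
    e ∈ inc j ↔ j = oth i e := by
  unfold oth
  rw [mem_inc] at he ⊢
  split_ifs with h
  · constructor
    · rintro (h1 | h1)
      · exact absurd (h1.symm.trans h) hj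
      · exact h1.symm
    · intro h1; right; exact h1.symm
  · have h2 : pb e = i := he.resolve_left h
    constructor
    · rintro (h1 | h1)
      · exact h1.symm
      · exact absurd (h1.symm.trans h2) hj
    · intro h1; left; exact h1.symm

theorem load_inr (x : Node n → Bool) (i : Node n) (t : Finset (Node n ⊕ Edge n)) (e : Edge n)
    (he : e ∈ inc i) (h : (Sum.inr e : Node n ⊕ Edge n) ∈ t) :
    load (Function.update (st x) i t) (Sum.inr e) = if x (oth i e) then 2 else 1 := by
  unfold load
  have hne := oth_ne he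
  split_ifs with hx
  · rw [card_eq_two]
    refine ⟨i, oth i e, hne.symm, ?_⟩
    ext j
    simp only [mem_filter, mem_univ, true_and, mem_singleton, mem_insert]
    by_cases hj : j = i
    · subst hj; simp [h]
    · simp only [Function.update_of_ne hj, inr_mem_st, hj, false_or, mem_inc_oth he hj]
      constructor
      · exact fun h => h.2
      · intro h1; subst h1; exact ⟨hx, rfl⟩
  · rw [card_eq_one]
    refine ⟨i, ?_⟩
    ext j
    simp only [mem_filter, mem_univ, true_and, mem_singleton]
    by_cases hj : j = i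
    · subst hj; simp [h]
    · simp only [Function.update_of_ne hj, inr_mem_st, hj, iff_false, mem_inc_oth he hj]
      rintro ⟨h1, h2⟩
      subst h2
      exact hx h1

theorem gain_dev (x : Node n → Bool) (i : Node n) (t : Finset (Node n ⊕ Edge n))
    (ht : ∀ h ∈ t, (inst n).likes i h) :
    gain (inst n) (Function.update (st x) i t) i = ∑ h ∈ t, val x i h := by
  unfold gain
  rw [Function.update_self]
  refine sum_congr rfl fun h hh => ?_
  rcases ht h hh with rfl | ⟨e, he, rfl⟩
  · rw [load_inl x i t hh]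
    simp [inst, val]
  · rw [load_inr x i t e he hh]
    simp only [inst, val]
    split_ifs <;> push_cast <;> ring

theorem val_pos (x : Node n → Bool) (i : Node n) (h : Node n ⊕ Edge n) : 0 < val x i h := by
  rcases h with j | e
  · exact tot_th i
  · have := wt_pos e
    simp only [val]
    split_ifs <;> linarith

theorem sum_val_in (x : Node n → Bool) (i : Node n) :
    ∑ h ∈ strat true i, val x i h = 2 * tot i - act x i := by
  simp only [strat, if_true, sum_map, Function.Embedding.inr_apply, val, sum_sub_distrib, tot, act,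
    mul_sum]

theorem sum_val_out (x : Node n → Bool) (i : Node n) :
    ∑ h ∈ strat false i, val x i h = 2 * tot i - th i := by
  simp [strat, val]

theorem feasible_strat (b : Bool) (i : Node n) : Feasible (inst n) i (strat b i) := by
  cases b
  · refine ⟨?_, ?_⟩
    · intro h hh
      simp [strat] at hh
      exact Or.inl hh
    · simp [strat, inst]
  · refine ⟨?_, ?_⟩
    · intro h hh
      simp only [strat, if_true, mem_map, Function.Embedding.inr_apply] at hh
      obtain ⟨e, he, rfl⟩ := hh
      exact Or.inr ⟨e, he, rfl⟩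
    · simp only [strat, if_true, sum_map, Function.Embedding.inr_apply, inst, sum_const,
        nsmul_eq_mul, mul_one]
      have h1 : ((inc i).card : ℝ) ≤ ((5 : ℕ) : ℝ) := Nat.cast_le.2 (card_inc_le i)
      push_cast at h1
      linarith

theorem sum_val_le (x : Node n → Bool) (i : Node n) (t : Finset (Node n ⊕ Edge n))
    (ht : Feasible (inst n) i t) :
    ∑ h ∈ t, val x i h ≤ max (2 * tot i - th i) (2 * tot i - act x i) := by
  by_cases hi : (Sum.inl i : Node n ⊕ Edge n) ∈ t
  · have ht2 : t = {Sum.inl i} := by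
      apply eq_singleton_iff_unique_mem.2 ⟨hi, ?_⟩
      intro h hh
      rcases ht.1 h hh with rfl | ⟨e, he, rfl⟩
      · rfl
      · exfalso
        have h1 : ∑ a ∈ ({Sum.inl i, Sum.inr e} : Finset (Node n ⊕ Edge n)), (inst n).cost a
            ≤ ∑ a ∈ t, (inst n).cost a := by
          refine sum_le_sum_of_subset_of_nonneg ?_ fun a _ _ => ((inst n).cost_pos a).le
          intro a ha
          simp only [mem_insert, mem_singleton] at ha
          rcases ha with rfl | rfl
          · exact hi
          · exact hh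
        have h2 := h1.trans ht.2
        rw [sum_pair (by simp)] at h2
        simp only [inst] at h2
        linarith
    subst ht2
    refine le_max_of_le_left ?_
    simp [val]
  · refine le_max_of_le_right ?_
    rw [← sum_val_in x i]
    refine sum_le_sum_of_subset_of_nonneg ?_ fun a _ _ => (val_pos x i a).le
    intro h hh
    rcases ht.1 h hh with rfl | ⟨e, he, rfl⟩
    · exact absurd hh hi
    · simp only [strat, if_true, mem_map, Function.Embedding.inr_apply]
      exact ⟨e, he, rfl⟩

theorem st_eq_update (x : Node n → Bool) (i : Node n) :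
    st x = Function.update (st x) i (strat (x i) i) := by
  rw [← st_update, Function.update_eq_self]

theorem gain_st (x : Node n → Bool) (i : Node n) :
    gain (inst n) (st x) i = ∑ h ∈ strat (x i) i, val x i h := by
  conv_lhs => rw [st_eq_update x i]
  exact gain_dev x i _ (feasible_strat _ i).1

theorem move_up (x : Node n → Bool) (i : Node n) (hx : x i = false) (h : act x i < th i) :
    Move (inst n) (st x) (st (Function.update x i true)) := by
  refine ⟨i, strat true i, feasible_strat _ i, st_update x i true, ?_, ?_⟩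
  · rw [gain_st, hx, sum_val_out, st_update, gain_dev x i _ (feasible_strat _ i).1, sum_val_in]
    linarith
  · intro t ht
    rw [st_update, gain_dev x i _ (feasible_strat _ i).1, gain_dev x i t ht.1, sum_val_in]
    refine (sum_val_le x i t ht).trans (max_le ?_ le_rfl)
    linarith

theorem move_down (x : Node n → Bool) (i : Node n) (hx : x i = true) (h : th i < act x i) :
    Move (inst n) (st x) (st (Function.update x i false)) := by
  refine ⟨i, strat false i, feasible_strat _ i, st_update x i false, ?_, ?_⟩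
  · rw [gain_st, hx, sum_val_in, st_update, gain_dev x i _ (feasible_strat _ i).1, sum_val_out]
    linarith
  · intro t ht
    rw [st_update, gain_dev x i _ (feasible_strat _ i).1, gain_dev x i t ht.1, sum_val_out]
    refine (sum_val_le x i t ht).trans (max_le le_rfl ?_)
    linarith

end Run7.h413.BR
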