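import Pool.Agent.Run7.h413.BR.Net

/-!
# A chain of gates inside the budgeted sharing game: the long path
-/

set_option autoImplicit false

namespace Run7.h413.BR

open Finset

variable {n : ℕ}

theorem act_a (x : ℕ → Bool) {j : ℕ} (hj : j < n) (h : 3 * j + 1 < 3 * n + 1) :
    act (fun i : Node n => x i) ⟨3 * j + 1, h⟩ = (if x (3 * j) then 10 * sc j else 0) +
      ((if x (3 * j + 2) then 4 * sc j else 0) + (if x (3 * j + 3) then 4 * sc j else 0)) := by
  rw [act, inc_a hj h, sum_insert (by simp), sum_insert (by simp), sum_singleton]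
  simp [oth, pa, pb, sr, ds, wt, w0]

theorem act_b (x : ℕ → Bool) {j : ℕ} (hj : j < n) (h : 3 * j + 2 < 3 * n + 1) :
    act (fun i : Node n => x i) ⟨3 * j + 2, h⟩ = (if x (3 * j + 1) then 4 * sc j else 0) +
      (if x (3 * j + 3) then 2 * sc j else 0) := by
  rw [act, inc_b hj h, sum_insert (by simp), sum_singleton]
  simp [oth, pa, pb, sr, ds, wt, w0]

theorem act_u (x : ℕ → Bool) {j : ℕ} (hj : j < n) (h : 3 * j + 3 < 3 * n + 1) :
    ∃ r : ℝ, 0 ≤ r ∧ r ≤ 12 * sc (j + 1) ∧
    act (fun i : Node n => x i) ⟨3 * j + 3, h⟩ = (if x (3 * j) then 2 * sc j else 0) +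
      ((if x (3 * j + 1) then 4 * sc j else 0) + ((if x (3 * j + 2) then 2 * sc j else 0) + r)) := by
  have hs := sc_pos (j + 1)
  by_cases h1 : j + 1 < n
  · refine ⟨(if x (3 * (j + 1) + 1) then 10 * sc (j + 1) else 0) +
      (if x (3 * (j + 1) + 3) then 2 * sc (j + 1) else 0), ?_, ?_, ?_⟩
    · split_ifs <;> linarith
    · split_ifs <;> linarith
    · rw [act, inc_u2 hj h h1, sum_insert (by simp), sum_insert (by simp), sum_insert (by simp),
        sum_insert (by simp), sum_singleton]
      simp [oth, pa, pb, sr, ds, wt, w0, mul_add]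
  · refine ⟨0, le_rfl, by linarith, ?_⟩
    rw [act, inc_u hj h h1, sum_insert (by simp), sum_insert (by simp), sum_singleton]
    simp [oth, pa, pb, sr, ds, wt, w0]

theorem th_a (j : ℕ) : th (3 * j + 1) = 9 * sc j := by
  have h1 : (3 * j + 1) % 3 = 1 := by omega
  have h2 : (3 * j + 1 - 1) / 3 = j := by omega
  simp only [th, if_neg (show 3 * j + 1 ≠ 0 by omega), if_pos h1, h2]

theorem th_b (j : ℕ) : th (3 * j + 2) = 3 * sc j := by
  have h1 : ¬ (3 * j + 2) % 3 = 1 := by omega
  have h2 : (3 * j + 2 - 1) / 3 = j := by omega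
  simp only [th, if_neg (show 3 * j + 2 ≠ 0 by omega), if_neg h1, h2]

theorem th_u (j : ℕ) : th (3 * j + 3) = 3 * sc j := by
  have h1 : ¬ (3 * j + 3) % 3 = 1 := by omega
  have h2 : (3 * j + 3 - 1) / 3 = j := by omega
  simp only [th, if_neg (show 3 * j + 3 ≠ 0 by omega), if_neg h1, h2]

/-- one move between configurations -/
def Stp (n : ℕ) (x y : ℕ → Bool) : Prop :=
  Move (inst n) (st fun i : Node n => x i) (st fun i : Node n => y i)

theorem res_update (x : ℕ → Bool) (k : ℕ) (h : k < 3 * n + 1) (v : Bool) :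
    (fun i : Node n => Function.update x k v i) =
      Function.update (fun i : Node n => x i) ⟨k, h⟩ v := by
  funext i
  by_cases hi : i = ⟨k, h⟩
  · subst hi; simp
  · have : (i : ℕ) ≠ k := fun h2 => hi (Fin.ext h2)
    simp [this, hi]

theorem stp_up (x : ℕ → Bool) (k : ℕ) (h : k < 3 * n + 1) (hx : x k = false)
    (ha : act (fun i : Node n => x i) ⟨k, h⟩ < th k) : Stp n x (Function.update x k true) := by
  unfold Stp
  rw [res_update x k h true]
  exact move_up _ _ hx ha

theorem stp_down (x : ℕ → Bool) (k : ℕ) (h : k < 3 * n + 1) (hx : x k = true)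
    (ha : th k < act (fun i : Node n => x i) ⟨k, h⟩) : Stp n x (Function.update x k false) := by
  unfold Stp
  rw [res_update x k h false]
  exact move_down _ _ hx ha

theorem gate_a (x : ℕ → Bool) {j : ℕ} (hj : j < n) (v : Bool) (h1 : x (3 * j + 1) = !v)
    (h0 : x (3 * j) = !v) : Stp n x (Function.update x (3 * j + 1) v) := by
  have hs := sc_pos j
  have h : 3 * j + 1 < 3 * n + 1 := by omega
  cases v
  · refine stp_down x _ h h1 ?_
    rw [act_a x hj h, th_a, if_pos (by simpa using h0)]
    split_ifs <;> linarith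
  · refine stp_up x _ h h1 ?_
    rw [act_a x hj h, th_a, if_neg (by simpa using h0)]
    split_ifs <;> linarith

theorem gate_b (x : ℕ → Bool) {j : ℕ} (hj : j < n) (v : Bool) (h1 : x (3 * j + 2) = !v)
    (h0 : x (3 * j + 1) = !v) : Stp n x (Function.update x (3 * j + 2) v) := by
  have hs := sc_pos j
  have h : 3 * j + 2 < 3 * n + 1 := by omega
  cases v
  · refine stp_down x _ h h1 ?_
    rw [act_b x hj h, th_b, if_pos (by simpa using h0)]
    split_ifs <;> linarith
  · refine stp_up x _ h h1 ?_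
    rw [act_b x hj h, th_b, if_neg (by simpa using h0)]
    split_ifs <;> linarith

theorem gate_u (x : ℕ → Bool) {j : ℕ} (hj : j < n) (v : Bool) (h1 : x (3 * j + 3) = !v)
    (h0 : (x (3 * j + 1) || (x (3 * j) && x (3 * j + 2))) = !v) :
    Stp n x (Function.update x (3 * j + 3) v) := by
  have hs := sc_pos j
  have hs2 := sc_succ j
  have h : 3 * j + 3 < 3 * n + 1 := by omega
  obtain ⟨r, hr0, hr1, hr⟩ := act_u x hj h
  cases v
  · refine stp_down x _ h h1 ?_
    rw [hr, th_u]
    cases ha : x (3 * j + 1) <;> cases hb : x (3 * j) <;> cases hc : x (3 * j + 2) <;>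
      simp [ha, hb, hc] at h0 ⊢ <;> linarith
  · refine stp_up x _ h h1 ?_
    rw [hr, th_u]
    cases ha : x (3 * j + 1) <;> cases hb : x (3 * j) <;> cases hc : x (3 * j + 2) <;>
      simp [ha, hb, hc] at h0 ⊢ <;> linarith

/-- walks of a given length -/
inductive Wk {α : Type} (R : α → α → Prop) : ℕ → α → α → Prop
  | nil (x : α) : Wk R 0 x x
  | cons {x y z : α} {l : ℕ} : R x y → Wk R l y z → Wk R (l + 1) x z

theorem Wk.trans {α : Type} {R : α → α → Prop} {l m : ℕ} {x y z : α} (h : Wk R l x y)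
    (h' : Wk R m y z) : Wk R (l + m) x z := by
  induction h with
  | nil x => simpa using h'
  | @cons x y z l hr _ ih =>
    have := Wk.cons hr (ih h')
    rwa [show l + 1 + m = l + m + 1 by omega]

theorem Wk.exists_fun {α : Type} {R : α → α → Prop} {l : ℕ} {x y : α} (h : Wk R l x y) :
    ∃ P : ℕ → α, P 0 = x ∧ P l = y ∧ ∀ k < l, R (P k) (P (k + 1)) := by
  induction h with
  | nil x => exact ⟨fun _ => x, rfl, rfl, fun k hk => absurd hk (Nat.not_lt_zero k)⟩
  | @cons x y z l hr _ ih =>
    obtain ⟨P, h0, hl, hP⟩ := ih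
    refine ⟨fun k => if k = 0 then x else P (k - 1), by simp, by simp [hl], ?_⟩
    intro k hk
    rcases k with _ | k
    · simpa [h0] using hr
    · simpa using hP k (by omega)

/-- length of the path -/
def len : ℕ → ℕ
  | 0 => 0
  | d + 1 => 4 + 2 * len d

theorem len_eq (d : ℕ) : len d + 4 = 4 * 2 ^ d := by
  induction d with
  | zero => simp [len]
  | succ d ih => rw [len, pow_succ]; omega

/-- stable configurations of the levels `j, …, j + d - 1` with input `v` -/
def Sb : ℕ → ℕ → Bool → (ℕ → Bool) → Prop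
  | 0, _, _, _ => True
  | d + 1, j, v, x => x (3 * j + 1) = (!v) ∧ x (3 * j + 2) = v ∧ x (3 * j + 3) = false ∧
      Sb d (j + 1) false x

theorem Sb.congr {d j : ℕ} {v : Bool} {x y : ℕ → Bool} (h : ∀ i, 3 * j < i → y i = x i)
    (hx : Sb d j v x) : Sb d j v y := by
  induction d generalizing j v with
  | zero => trivial
  | succ d ih =>
    obtain ⟨h1, h2, h3, h4⟩ := hx
    refine ⟨?_, ?_, ?_, ih (fun i hi => h i (by omega)) h4⟩
    · rw [h _ (by omega), h1]
    · rw [h _ (by omega), h2]
    · rw [h _ (by omega), h3]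

theorem walk (n : ℕ) : ∀ d j : ℕ, j + d = n → ∀ (v : Bool) (x : ℕ → Bool), x (3 * j) = v →
    Sb d j (!v) x → ∃ y, Wk (Stp n) (len d) x y ∧ Sb d j v y ∧ ∀ i, i ≤ 3 * j → y i = x i := by
  intro d
  induction d with
  | zero =>
    intro j _ v x _ _
    exact ⟨x, Wk.nil x, trivial, fun i _ => rfl⟩
  | succ d ih =>
    intro j hjd v x hx hS
    have hj : j < n := by omega
    obtain ⟨h1, h2, h3, h4⟩ := hS
    have e3 : 3 * (j + 1) = 3 * j + 3 := by ring
    cases v
    · -- the input is false now
      simp only [Bool.not_false, Bool.not_true] at h1 h2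
      obtain ⟨x1, hx1⟩ : ∃ x1, x1 = Function.update x (3 * j + 3) true := ⟨_, rfl⟩
      have g1 : Stp n x x1 := by
        rw [hx1]
        exact gate_u x hj true (by simp [h3]) (by simp [h1, hx])
      have x1_3 : x1 (3 * j + 3) = true := by simp [hx1]
      have x1_o : ∀ i, i ≠ 3 * j + 3 → x1 i = x i := by
        intro i hi; rw [hx1, Function.update_of_ne hi]
      obtain ⟨y1, w1, s1, o1⟩ := ih (j + 1) (by omega) true x1 (by rw [e3, x1_3])
        (Sb.congr (fun i hi => x1_o i (by omega)) h4)
      rw [e3] at o1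
      obtain ⟨x2, hx2⟩ : ∃ x2, x2 = Function.update y1 (3 * j + 1) true := ⟨_, rfl⟩
      have g2 : Stp n y1 x2 := by
        rw [hx2]
        refine gate_a y1 hj true ?_ ?_
        · rw [o1 _ (by omega), x1_o _ (by omega), h1]; rfl
        · rw [o1 _ (by omega), x1_o _ (by omega), hx]; rfl
      have x2_1 : x2 (3 * j + 1) = true := by simp [hx2]
      have x2_o : ∀ i, i ≠ 3 * j + 1 → x2 i = y1 i := by
        intro i hi; rw [hx2, Function.update_of_ne hi]
      obtain ⟨x3, hx3⟩ : ∃ x3, x3 = Function.update x2 (3 * j + 3) false := ⟨_, rfl⟩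
      have g3 : Stp n x2 x3 := by
        rw [hx3]
        refine gate_u x2 hj false ?_ ?_
        · rw [x2_o _ (by omega), o1 _ (by omega), x1_3]; rfl
        · rw [x2_1]; rfl
      have x3_3 : x3 (3 * j + 3) = false := by simp [hx3]
      have x3_o : ∀ i, i ≠ 3 * j + 3 → x3 i = x2 i := by
        intro i hi; rw [hx3, Function.update_of_ne hi]
      obtain ⟨y3, w3, s3, o3⟩ := ih (j + 1) (by omega) false x3 (by rw [e3, x3_3])
        (Sb.congr (fun i hi => by rw [x3_o i (by omega), x2_o i (by omega)]) s1)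
      rw [e3] at o3
      obtain ⟨x4, hx4⟩ : ∃ x4, x4 = Function.update y3 (3 * j + 2) false := ⟨_, rfl⟩
      have g4 : Stp n y3 x4 := by
        rw [hx4]
        refine gate_b y3 hj false ?_ ?_
        · rw [o3 _ (by omega), x3_o _ (by omega), x2_o _ (by omega), o1 _ (by omega),
            x1_o _ (by omega), h2]; rfl
        · rw [o3 _ (by omega), x3_o _ (by omega), x2_1]; rfl
      have x4_2 : x4 (3 * j + 2) = false := by simp [hx4]
      have x4_o : ∀ i, i ≠ 3 * j + 2 → x4 i = y3 i := by
        intro i hi; rw [hx4, Function.update_of_ne hi]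
      refine ⟨x4, ?_, ⟨?_, x4_2, ?_, ?_⟩, ?_⟩
      · have W := Wk.cons g1 (w1.trans (Wk.cons g2 (Wk.cons g3 (w3.trans
          (Wk.cons g4 (Wk.nil x4))))))
        rw [show len (d + 1) = len d + (len d + (0 + 1) + 1 + 1) + 1 by rw [len]; omega]
        exact W
      · rw [x4_o _ (by omega), o3 _ (by omega), x3_o _ (by omega), x2_1]; rfl
      · rw [x4_o _ (by omega), o3 _ (by omega), x3_3]
      · exact Sb.congr (fun i hi => x4_o i (by omega)) s3
      · intro i hi
        rw [x4_o _ (by omega), o3 _ (by omega), x3_o _ (by omega), x2_o _ (by omega),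
          o1 _ (by omega), x1_o _ (by omega)]
    · -- the input is true now
      simp only [Bool.not_false, Bool.not_true] at h1 h2
      obtain ⟨x1, hx1⟩ : ∃ x1, x1 = Function.update x (3 * j + 1) false := ⟨_, rfl⟩
      have g1 : Stp n x x1 := by
        rw [hx1]
        exact gate_a x hj false (by simp [h1]) (by simp [hx])
      have x1_1 : x1 (3 * j + 1) = false := by simp [hx1]
      have x1_o : ∀ i, i ≠ 3 * j + 1 → x1 i = x i := by
        intro i hi; rw [hx1, Function.update_of_ne hi]
      obtain ⟨x2, hx2⟩ : ∃ x2, x2 = Function.update x1 (3 * j + 3) true := ⟨_, rfl⟩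
      have g2 : Stp n x1 x2 := by
        rw [hx2]
        refine gate_u x1 hj true ?_ ?_
        · rw [x1_o _ (by omega), h3]; rfl
        · rw [x1_1, x1_o (3 * j + 2) (by omega), h2]; simp
      have x2_3 : x2 (3 * j + 3) = true := by simp [hx2]
      have x2_o : ∀ i, i ≠ 3 * j + 3 → x2 i = x1 i := by
        intro i hi; rw [hx2, Function.update_of_ne hi]
      obtain ⟨y2, w2, s2, o2⟩ := ih (j + 1) (by omega) true x2 (by rw [e3, x2_3])
        (Sb.congr (fun i hi => by rw [x2_o i (by omega), x1_o i (by omega)]) h4)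
      rw [e3] at o2
      obtain ⟨x3, hx3⟩ : ∃ x3, x3 = Function.update y2 (3 * j + 2) true := ⟨_, rfl⟩
      have g3 : Stp n y2 x3 := by
        rw [hx3]
        refine gate_b y2 hj true ?_ ?_
        · rw [o2 _ (by omega), x2_o _ (by omega), x1_o _ (by omega), h2]; rfl
        · rw [o2 _ (by omega), x2_o _ (by omega), x1_1]; rfl
      have x3_2 : x3 (3 * j + 2) = true := by simp [hx3]
      have x3_o : ∀ i, i ≠ 3 * j + 2 → x3 i = y2 i := by
        intro i hi; rw [hx3, Function.update_of_ne hi]
      obtain ⟨x4, hx4⟩ : ∃ x4, x4 = Function.update x3 (3 * j + 3) false := ⟨_, rfl⟩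
      have g4 : Stp n x3 x4 := by
        rw [hx4]
        refine gate_u x3 hj false ?_ ?_
        · rw [x3_o _ (by omega), o2 _ (by omega), x2_3]; rfl
        · rw [x3_2, x3_o (3 * j) (by omega), o2 (3 * j) (by omega), x2_o (3 * j) (by omega),
            x1_o (3 * j) (by omega), hx]; simp
      have x4_3 : x4 (3 * j + 3) = false := by simp [hx4]
      have x4_o : ∀ i, i ≠ 3 * j + 3 → x4 i = x3 i := by
        intro i hi; rw [hx4, Function.update_of_ne hi]
      obtain ⟨y4, w4, s4, o4⟩ := ih (j + 1) (by omega) false x4 (by rw [e3, x4_3])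
        (Sb.congr (fun i hi => by rw [x4_o i (by omega), x3_o i (by omega)]) s2)
      rw [e3] at o4
      refine ⟨y4, ?_, ⟨?_, ?_, ?_, s4⟩, ?_⟩
      · have W := Wk.cons g1 (Wk.cons g2 (w2.trans (Wk.cons g3 (Wk.cons g4 w4))))
        rw [show len (d + 1) = len d + (len d + 1 + 1) + 1 + 1 by rw [len]; omega]
        exact W
      · rw [o4 _ (by omega), x4_o _ (by omega), x3_o _ (by omega), o2 _ (by omega),
          x2_o _ (by omega), x1_1]; rfl
      · rw [o4 _ (by omega), x4_o _ (by omega), x3_2]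
      · rw [o4 _ (by omega), x4_3]
      · intro i hi
        rw [o4 _ (by omega), x4_o _ (by omega), x3_o _ (by omega), o2 _ (by omega),
          x2_o _ (by omega), x1_o _ (by omega)]

theorem feasible_st (x : Node n → Bool) (j : Node n) : Feasible (inst n) j (st x j) :=
  feasible_strat _ _

/-- A best-response path of length `4 * 2 ^ n - 4`. -/
theorem path (n : ℕ) : ∃ P, IsPath (inst n) (len n) P := by
  have hSb : ∀ d j, Sb d (j + 1) false (fun i => decide (i = 0 ∨ i % 3 = 1)) := by
    intro d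
    induction d with
    | zero => intro j; trivial
    | succ d ih =>
      intro j
      refine ⟨?_, ?_, ?_, ih (j + 1)⟩ <;> simp
  have h0 : Sb n 0 (!true) (fun i => decide (i = 0 ∨ i % 3 = 1)) := by
    cases n with
    | zero => trivial
    | succ d => exact ⟨by simp, by simp, by simp, hSb d 0⟩
  obtain ⟨y, w, -, -⟩ := walk n n 0 (by omega) true _ (by simp) h0
  obtain ⟨P, -, -, hP⟩ := w.exists_fun
  exact ⟨fun k => st fun i : Node n => P k i, fun k _ j => feasible_st _ _, fun k hk => hP k hk⟩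

end Run7.h413.BR
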